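import Pool.Agent.helper59.ZB.SpecH

/-! # Row zbh:HBW (MP_baa4d7_al, project ZB): Bessel's inequality with weights -/

set_option autoImplicit false

namespace Pool.Agent.GB

open Pool.Agent.helper58.DC Pool.Agent.DI Pool.Agent.GR Pool.Agent.OB Pool.Agent.DR Pool.Agent.FI Pool.Agent.FI3 Pool.Agent.FI4 Pool.Agent.LE Pool.Agent.BR

open Classical in
theorem HBW_fs (Q : Type) [Fintype Q] (s : Set Q) (w : Q → ℝ) :
    ∑ᶠ u' ∈ s, w u' = ∑ u', if u' ∈ s then w u' else 0 := by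
  rw [finsum_mem_def, finsum_eq_sum_of_fintype]
  refine Finset.sum_congr rfl fun u _ => ?_
  rw [Set.indicator_apply]

theorem HBW_nm (z : ℂ) : ((‖z‖ ^ 2 : ℝ) : ℂ) = z * (starRingEnd ℂ) z := by
  rw [Complex.mul_conj, Complex.normSq_eq_norm_sq]

theorem HBW (hHBP : HBP_stmt) : HBW_stmt := by
  classical
  intro B _ Q _ r w a b₀ h0 h1 h2 h3 h4 c hc
  obtain ⟨-, hb⟩ := hHBP B Q r w a b₀ h0 h1 h2 h3 h4
  have hin : ∀ u u', ‖∑ b, a u b * (starRingEnd ℂ) (a u' b)‖ = if r u u' then ‖a u b₀‖ else 0 := by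
    intro u u'
    by_cases h : r u u'
    · rw [if_pos h, h2 u u' h, h4]
    · rw [if_neg h, h3 u u' h, norm_zero]
  have hw : ∀ u, ∑ u', (if r u u' then w u' else 0) = 1 := by
    intro u
    have h5 := h1 u
    rw [HBW_fs] at h5
    rw [← h5]
    refine Finset.sum_congr rfl fun u' _ => ?_
    by_cases h : r u u'
    · rw [if_pos h, if_pos (show u' ∈ {u' | r u u'} from h)]
    · rw [if_neg h, if_neg (show ¬ u' ∈ {u' | r u u'} from h)]
  have hS : ((∑ b, ‖∑ u, c u * a u b‖ ^ 2 : ℝ) : ℂ) = ∑ u, ∑ u', c u * (starRingEnd ℂ) (c u') * ∑ b, a u b * (starRingEnd ℂ) (a u' b) := by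
    rw [Complex.ofReal_sum]
    have e1 : ∀ b, ((‖∑ u, c u * a u b‖ ^ 2 : ℝ) : ℂ) = ∑ u, ∑ u', c u * (starRingEnd ℂ) (c u') * (a u b * (starRingEnd ℂ) (a u' b)) := by
      intro b
      rw [HBW_nm, map_sum, Finset.sum_mul_sum]
      refine Finset.sum_congr rfl fun u _ => Finset.sum_congr rfl fun u' _ => ?_
      rw [map_mul]
      ring
    rw [Finset.sum_congr rfl fun b _ => e1 b, Finset.sum_comm]
    refine Finset.sum_congr rfl fun u _ => ?_
    rw [Finset.sum_comm]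
    refine Finset.sum_congr rfl fun u' _ => ?_
    rw [← Finset.mul_sum]
  have hpos : 0 ≤ ∑ b, ‖∑ u, c u * a u b‖ ^ 2 := Finset.sum_nonneg fun b _ => by positivity
  have hN : ∑ b, ‖∑ u, c u * a u b‖ ^ 2 = ‖∑ u, ∑ u', c u * (starRingEnd ℂ) (c u') * ∑ b, a u b * (starRingEnd ℂ) (a u' b)‖ := by
    rw [← hS, Complex.norm_real, Real.norm_eq_abs, abs_of_nonneg hpos]
  rw [hN]
  calc ‖∑ u, ∑ u', c u * (starRingEnd ℂ) (c u') * ∑ b, a u b * (starRingEnd ℂ) (a u' b)‖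
      ≤ ∑ u, ∑ u', ‖c u * (starRingEnd ℂ) (c u') * ∑ b, a u b * (starRingEnd ℂ) (a u' b)‖ :=
        (norm_sum_le _ _).trans (Finset.sum_le_sum fun u _ => norm_sum_le _ _)
    _ ≤ ∑ u, ∑ u', w u * ‖a u b₀‖ * (if r u u' then w u' else 0) := by
        refine Finset.sum_le_sum fun u _ => Finset.sum_le_sum fun u' _ => ?_
        rw [norm_mul, norm_mul, RCLike.norm_conj, hin]
        by_cases h : r u u'
        · rw [if_pos h, if_pos h]
          have h5 : ‖c u‖ * ‖c u'‖ ≤ w u * w u' := mul_le_mul (hc u) (hc u') (norm_nonneg _) (h0 u)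
          have h6 := mul_le_mul_of_nonneg_right h5 (norm_nonneg (a u b₀))
          linarith
        · rw [if_neg h, if_neg h, mul_zero, mul_zero]
    _ = ∑ u, w u * ‖a u b₀‖ := by
        refine Finset.sum_congr rfl fun u _ => ?_
        rw [← Finset.mul_sum, hw, mul_one]
    _ ≤ 1 := hb

end Pool.Agent.GB
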