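import Pool.Agent.helper7.ZB.SpecT

/-!
# MP_baa4d7_al, THEOREM ZB, row ZQU: uniqueness of the block of `L ⊓ nz E`
-/

set_option autoImplicit false

namespace Pool.Agent.ZB

open Pool.Agent.helper58.DC Pool.Agent.DI Pool.Agent.GR Pool.Agent.OB Pool.Agent.DR Pool.Agent.FI Pool.Agent.FI3 Pool.Agent.FI4 Pool.Agent.FI4I Pool.Agent.LE Pool.Agent.L5 Pool.Agent.NAB

section

variable {G : Type} [Group G]

theorem ZQU_nz {E : Subgroup G} {l : G} (h : cjS l E = E) : l ∈ nz E := by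
  refine Subgroup.mem_normalizer_iff.2 fun x => ?_
  constructor
  · intro hx
    have h1 : l * x * l⁻¹ ∈ cjS l E := by
      rw [mem_cjS]
      have h2 : l⁻¹ * (l * x * l⁻¹) * l = x := by group
      rwa [h2]
    rwa [h] at h1
  · intro hx
    have h1 : l * x * l⁻¹ ∈ cjS l E := by
      rw [h]
      exact hx
    rw [mem_cjS] at h1
    have h2 : l⁻¹ * (l * x * l⁻¹) * l = x := by group
    rwa [h2] at h1

theorem ZQU_card (l : G) (Q : Subgroup G) : Nat.card (cjS l Q) = Nat.card Q :=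
  Subgroup.card_map_of_injective (MulAut.conj l).injective

theorem ZQU_cjS_mul (a b : G) (Q : Subgroup G) : cjS (a * b) Q = cjS a (cjS b Q) := by
  ext x
  rw [mem_cjS, mem_cjS, mem_cjS]
  have h : (a * b)⁻¹ * x * (a * b) = b⁻¹ * (a⁻¹ * x * a) * b := by group
  rw [h]

theorem ZQU_cjS_one (Q : Subgroup G) : cjS (1 : G) Q = Q := by
  ext x
  rw [mem_cjS]
  simp

end

theorem ZQU (hZHE : ZHE_stmt) (hZQD : ZQD_stmt) (hZUB : ZUB_stmt) (_hZUH : ZUH_stmt) (hNQ5 : NQ5_stmt) (hZE1 : ZE1_stmt) (hZE2 : ZE2_stmt)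
    (hTRN : Pool.Agent.FI.TRN_stmt) : ZQU_stmt := by
  intro p κ M hM G _ _ L E ψ hψ D x hD hKD η hη
  have hp : p.Prime := hM.pr
  have hHL : L ⊓ nz E ≤ L := inf_le_left
  have claim : ∀ (η' : G → ℂ) (Q : Subgroup G) (y : G), η' ∈ IrrOn (L ⊓ nz E) → SB M L η' ψ → DefL p M (L ⊓ nz E) η' Q y → KZ p κ Q → EQ p κ.s Q = E →
      ∃ l ∈ L, cjS l Q = D := by
    intro η' Q y hη' hSB hQ hKQ hE
    obtain ⟨-, -, -, q1, q2, q3, q4⟩ := hZE1 p hp κ G Q hKQ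
    obtain ⟨-, -, -, d1, d2, d3, d4⟩ := hZE1 p hp κ G D hKD
    rw [hE] at q1 q2 q3 q4
    have hcz : L ⊓ cz Q ≤ L ⊓ nz E := inf_le_inf_left L (q2.trans q3)
    have hcard : Nat.card Q = Nat.card D := by
      refine hZQD p M hM G L (L ⊓ nz E) hHL ψ hψ D x hD η' hη' hSB Q y hQ hcz ?_
      intro l hl hle
      obtain ⟨-, -, e3⟩ := hZE2 p hp κ G Q hKQ
      obtain ⟨e1, -, -⟩ := hZE2 p hp κ G D hKD
      have h1 : EQ p κ.s D = cjS l E := by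
        rw [← e1 (cjS l Q) (e3 l).1 hle, (e3 l).2, hE]
      refine le_inf ?_ ?_
      · intro g hg
        rw [mem_cjS, inv_inv] at hg
        have h2 : l * g * l⁻¹ ∈ L := (hD.le hg).1
        have h3 := L.mul_mem (L.mul_mem (L.inv_mem hl) h2) hl
        have h4 : l⁻¹ * (l * g * l⁻¹) * l = g := by group
        rwa [h4] at h3
      · refine le_trans ?_ q3
        intro g hg
        rw [mem_cjS, inv_inv] at hg
        have h2 : l * g * l⁻¹ ∈ cz (EQ p κ.s D) := d1 hg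
        rw [h1, Subgroup.mem_centralizer_iff] at h2
        rw [Subgroup.mem_centralizer_iff]
        intro b hb
        have h3 : l * b * l⁻¹ ∈ cjS l E := by
          rw [mem_cjS]
          have h4 : l⁻¹ * (l * b * l⁻¹) * l = b := by group
          rwa [h4]
        have h5 := h2 _ h3
        have h6 : l⁻¹ * ((l * b * l⁻¹) * (l * g * l⁻¹)) * l = l⁻¹ * ((l * g * l⁻¹) * (l * b * l⁻¹)) * l := by rw [h5]
        have h7 : l⁻¹ * ((l * b * l⁻¹) * (l * g * l⁻¹)) * l = b * g := by group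
        have h8 : l⁻¹ * ((l * g * l⁻¹) * (l * b * l⁻¹)) * l = g * b := by group
        rw [h7, h8] at h6
        exact h6
    obtain ⟨l, hl, hle, -⟩ := hZHE p M hM G L (L ⊓ nz E) hHL ψ hψ D x hD η' hη' hSB Q y hQ hcz
    refine ⟨l, hl, Subgroup.eq_of_le_of_card_ge hle ?_⟩
    rw [ZQU_card, hcard]
  obtain ⟨hηH, hSB, Q, y, hQ, hKQ, hE⟩ := hη
  obtain ⟨l, hl, hlQ⟩ := claim η Q y hηH hSB hQ hKQ hE
  have key : ∀ η' ∈ BQ p κ M L (L ⊓ nz E) E ψ, SB M (L ⊓ nz E) η η' := by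
    rintro η' ⟨hηH', hSB', Q', y', hQ', hKQ', hE'⟩
    obtain ⟨l', hl', hlQ'⟩ := claim η' Q' y' hηH' hSB' hQ' hKQ' hE'
    have hn : cjS (l'⁻¹ * l) Q = Q' := by
      rw [ZQU_cjS_mul, hlQ, ← hlQ', ← ZQU_cjS_mul, inv_mul_cancel, ZQU_cjS_one]
    have hnE : cjS (l'⁻¹ * l) E = E := by
      have h1 := ((hZE2 p hp κ G Q hKQ).2.2 (l'⁻¹ * l)).2
      rw [hn, hE, hE'] at h1
      exact h1.symm
    have hnH : l'⁻¹ * l ∈ L ⊓ nz E := ⟨L.mul_mem (L.inv_mem hl') hl, ZQU_nz hnE⟩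
    have hD2 := (hZUB p M hM G (L ⊓ nz E) η Q y hQ).2.2 hηH (l'⁻¹ * l) hnH
    rw [hn] at hD2
    obtain ⟨-, -, -, -, -, -, q4⟩ := hZE1 p hp κ G Q' hKQ'
    rw [hE'] at q4
    exact hNQ5 p M hM G L (L ⊓ nz E) Q' hHL (inf_le_inf_left L q4) η hηH η' hηH' _ _ hD2 hQ' ψ hSB hSB'
  have hset : BQ p κ M L (L ⊓ nz E) E ψ = Bl M (L ⊓ nz E) η := by
    ext η'
    constructor
    · intro h
      exact ⟨h.1, (key η' h).symm⟩
    · rintro ⟨h1, h2⟩
      refine ⟨h1, ?_, Q, y, (hZUB p M hM G (L ⊓ nz E) η Q y hQ).1 η' h2.symm, hKQ, hE⟩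
      exact ((hTRN G M (L ⊓ nz E) L hHL η' η ψ h1.1 hηH.1 h2).2).1 hSB
  refine ⟨hset, ?_⟩
  unfold lQ Le
  rw [hset]

end Pool.Agent.ZB
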